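import Mathlib
import Pool.Agent.H28.PolyD

set_option autoImplicit false

namespace Pool.Agent.Results.MP_ace873_an.Cantor

open Filter Topology Set Metric MeasureTheory Pool.Agent.H28.PolyC
open scoped unitInterval

/-- Polyhedral normed spaces. -/
def Polyhedral (Z : Type) [NormedAddCommGroup Z] [NormedSpace ℝ Z] : Prop :=
  ∀ E : Submodule ℝ Z, FiniteDimensional ℝ E →
    ∃ V : Finset Z, (E : Set Z) ∩ closedBall 0 1 = convexHull ℝ V

lemma poly : Polyhedral Y := fun E _ => by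
  obtain ⟨J, h⟩ := glob (E := E) (by
    refine (congrArg IsCompact ?_).mp ((isCompact_sphere (0 : E) 1).image continuous_subtype_val)
    ext y; simp [and_comm]) (fun c _ => E.smul_mem c) fun _ a _ => E.sub_mem a
  exact polytope E (fun l => (BoundedContinuousFunction.evalCLM ℝ l).comp Y.subtypeL) J
    (fun l y => co_le y l) h

lemma p_norm (t : ℕ → Bool) : ‖p t‖ = 1 :=
  ((BoundedContinuousFunction.norm_le zero_le_one).2 (pf1 t)).antisymm
    (le_trans (by rw [p_apply, pf_nd, abs_one]) (co_le (p t) (nd t 0, true)))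

lemma ae_le {Z : Type} [NormedAddCommGroup Z] [NormedSpace ℝ Z] {f : I → Z} (hf : ∀ ω, ‖f ω‖ = 1)
    {g : ℕ → I → ℝ} {y : ℕ → Z} (g1 : ∀ i, Integrable (g i))
    (g2 : ∀ᵐ ω, Tendsto (fun n => ∑ i ∈ Finset.range n, g i ω • y i) atTop (𝓝 (f ω)))
    (g3 : HasSum (fun i => (∫ ω, |g i ω|) * ‖y i‖) (∫ ω, ‖f ω‖)) :
    ∀ᵐ ω, ∀ n, ∑ j ∈ Finset.range n, ‖g j ω • y j‖ ≤ 1 := by
  have g4 : ∀ i, Integrable fun ω => g i ω • y i := fun i => (g1 i).smul_const _
  have g5 : ∫⁻ ω, ∑' i, ‖g i ω • y i‖ₑ = 1 := by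
    simp only [hf, integral_const, probReal_univ, smul_eq_mul, mul_one] at g3
    rw [lintegral_tsum fun i => (g4 i).aestronglyMeasurable.enorm, ← ENNReal.ofReal_one, ← g3.tsum_eq,
      ENNReal.ofReal_tsum_of_nonneg (fun i => by positivity) g3.summable]
    refine tsum_congr fun i => ?_
    rw [← ofReal_integral_norm_eq_lintegral_enorm (g4 i)]
    simp [norm_smul, integral_mul_const]
  have g6 : (fun _ => 1) ≤ᵐ[volume] fun ω => ∑' i, ‖g i ω • y i‖ₑ := g2.mono fun ω h => by
    refine le_of_tendsto' (by simpa only [← ofReal_norm (f ω), hf, ENNReal.ofReal_one] using h.enorm) fun n => ?_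
    exact (enorm_sum_le _ _).trans (ENNReal.sum_le_tsum _)
  have g7 := ae_eq_of_ae_le_of_lintegral_le g6 (by simp)
    (AEMeasurable.tsum fun i => (g4 i).aestronglyMeasurable.enorm) (by simp [g5])
  filter_upwards [g7] with ω k2 n
  have := (ENNReal.sum_le_tsum (Finset.range n)).trans (le_of_eq k2.symm)
  simp only [← ofReal_norm] at this
  rwa [← ENNReal.ofReal_sum_of_nonneg fun _ _ => norm_nonneg _, ENNReal.ofReal_le_one] at this

theorem result : ∃ (Z : Type) (_ : NormedAddCommGroup Z) (_ : NormedSpace ℝ Z), CompleteSpace Z ∧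
    Polyhedral Z ∧ ∃ f : I → Z, Integrable f ∧ ¬ ∃ (g : ℕ → I → ℝ) (y : ℕ → Z), (∀ i, Integrable (g i)) ∧
      (∀ᵐ ω, Tendsto (fun n => ∑ i ∈ Finset.range n, g i ω • y i) atTop (𝓝 (f ω))) ∧
      HasSum (fun i => (∫ ω, |g i ω|) * ‖y i‖) (∫ ω, ‖f ω‖) := by
  obtain ⟨q, hq⟩ := exists_surjective_nat ℚ
  set τ : I → ℕ → Bool := fun ω k => decide ((q k : ℝ) < ω)
  have h1 : Measurable τ := measurable_pi_iff.2 fun k => measurable_to_bool (by
    convert measurableSet_lt (measurable_const (a := (q k : ℝ))) (measurable_subtype_coe (p := (· ∈ I))) using 1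
    ext; simp [τ])
  have h2 : ∀ a b : I, a < b → τ a ≠ τ b := fun a b h e => by
    obtain ⟨s, k1, k2⟩ := exists_rat_btwn (show (a : ℝ) < b from h)
    obtain ⟨k, rfl⟩ := hq s
    simpa [τ, k2, k1.not_gt] using congrFun e k
  have h3 : Function.Injective τ := fun a b e => le_antisymm (not_lt.1 fun h => h2 _ _ h e.symm)
    (not_lt.1 fun h => h2 _ _ h e)
  refine ⟨Y, inferInstance, inferInstance, Y_closed.completeSpace_coe, poly, fun ω => p (τ ω),
    .of_bound (p_cont.comp_stronglyMeasurable h1.stronglyMeasurable).aestronglyMeasurable 1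
      (.of_forall fun ω => (p_norm _).le), fun ⟨g, y, g1, g2, g3⟩ => ?_⟩
  have g7 := ae_le (fun ω => p_norm (τ ω)) g1 g2 g3
  have g8 : (⋃ i, {ω : I | ∃ a c : ℝ, c ≠ 0 ∧ a • y i = c • p (τ ω)}).Countable :=
    countable_iUnion fun i => Set.Subsingleton.countable fun ω ⟨a, c, k1, k2⟩ ω' ⟨a', c', k3, k4⟩ => by
      have k5 : a * _ = c * pf _ _ := congrArg (fun v : Y => v.1 (nd (τ ω) 0, true)) k2
      have k6 : a' * _ = c' * pf _ _ := congrArg (fun v : Y => v.1 (nd (τ ω') 0, true)) k4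
      rw [pf_nd, mul_one, nd_congr (τ := 0) (by simp)] at k5 k6
      refine h3 (p_inj (smul_right_injective Y (mul_ne_zero k1 k3) ?_))
      calc (c * c') • p (τ ω) = c' • a • y i := by rw [k2, smul_smul, mul_comm]
        _ = c • a' • y i := by rw [smul_smul, smul_smul, ← k5, ← k6]; congr 1; ring
        _ = (c * c') • p (τ ω') := by rw [k4, smul_smul]
  obtain ⟨ω, k1, k2, k3⟩ := (g2.and (g7.and (measure_eq_zero_iff_ae_notMem.1
    (g8.measure_zero volume)))).exists
  have k4 : ∀ i, g i ω • y i = 0 := fun i => by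
    by_contra h
    refine k3 (mem_iUnion.2 ⟨i, g i ω, _, norm_ne_zero_iff.2 h, rigid _ _ _ fun k b => ?_⟩)
    refine ((le_abs_self _).trans (co_le _ _)).antisymm (sub_nonpos.1 ?_)
    have k5 := (((BoundedContinuousFunction.evalCLM ℝ (nd (τ ω) k, b)).comp Y.subtypeL).continuous.tendsto
      _).comp k1 |>.const_sub 1
    refine ge_of_tendsto (by simpa [p_apply, pf_nd] using k5) ((eventually_gt_atTop i).mono fun n hn => ?_)
    have k6 := k2 n
    have k7 := Finset.single_le_sum (f := fun j => ‖g j ω • y j‖ - (g j ω • y j).1 (nd (τ ω) k, b))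
      (fun j _ => sub_nonneg.2 ((le_abs_self _).trans (co_le _ _))) (Finset.mem_range.2 hn)
    rw [Finset.sum_sub_distrib] at k7
    simp at k6 k7 ⊢
    linarith
  simp only [k4, Finset.sum_const_zero] at k1
  simpa [← tendsto_nhds_unique tendsto_const_nhds k1] using p_norm (τ ω)

end Pool.Agent.Results.MP_ace873_an.Cantor
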